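import Pool.Agent.TH654.OQ.Close

/-!
# `P = PH`, and one quantum question decides `PSPACE`: how many oracles, and how many changes?

`IsBQPq 1 A L` says that the language `L` is decided, with probability of error at most `1/3`, by
polynomial-time uniform quantum circuits which ask the oracle `A` at most ONE question. Call an
oracle `A` *good* if, relative to `A`, the polynomial hierarchy is equal to `P`, such circuits
decide every language in `PSPACE`, and they decide a language outside `P = PH`.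

* For every gauge `f`, the good oracles are a null set for `f` if and only if for every `ε > 0`
  there are infinitely many `N` with `f N ≤ 2 ^ ((log N) ^ ε)`.
* Let `Close g O A` say that for all large `n` the oracles `O` and `A` differ on at most `g n`
  strings of length at most `n`. Every oracle `O` has a good oracle `A` with `Close g O A`, unless
  for every `ε > 0` there are infinitely many `n` with `g n ≤ 2 ^ (n ^ ε)`; in this case, for almost
  every oracle `O`, no oracle `A` with `Close g O A` is good (and not even `NP` is contained in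
  `BQP/poly` relative to such an `A`).
-/

set_option autoImplicit false

namespace Pool.Agent.Results.MP_2eaaa0_lc.CollapseThreshold

open Pool.Agent.NPC Pool.Agent.H620R2.Gauge Pool.Agent.H516R2.EQP Pool.Agent.H440Q
open Pool.Agent.W900.CH (Close)
open Pool.Agent.H628R3.RO (randomOracle)
open MeasureTheory Filter

theorem result :
    (∀ f : ℕ → ℝ,
      Null f {A : Oracle | (∀ L, IsPH A L ↔ IsP A L) ∧ (∀ L, IsPSPACE A L → IsBQPq 1 A L) ∧
          ∃ L, IsBQPq 1 A L ∧ ¬ IsPH A L} ↔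
        ∀ ε : ℝ, 0 < ε → ∃ᶠ N : ℕ in atTop, f N ≤ 2 ^ (Real.logb 2 N) ^ ε) ∧
    ∀ g : ℕ → ℝ,
      ((¬ ∀ ε : ℝ, 0 < ε → ∃ᶠ n : ℕ in atTop, g n ≤ 2 ^ (n : ℝ) ^ ε) →
        ∀ O : Oracle, ∃ A : Oracle, Close g O A ∧ (∀ L, IsPH A L ↔ IsP A L) ∧
          (∀ L, IsPSPACE A L → IsBQPq 1 A L) ∧ ∃ L, IsBQPq 1 A L ∧ ¬ IsPH A L) ∧
      ((∀ ε : ℝ, 0 < ε → ∃ᶠ n : ℕ in atTop, g n ≤ 2 ^ (n : ℝ) ^ ε) →
        ∀ᵐ O ∂randomOracle, ∀ A : Oracle, Close g O A →
          ∃ L, IsNP A L ∧ ¬ WithAdvice (IsBQP A) L) := by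
  refine ⟨fun f => ?_, fun g => ⟨fun hg O => ?_, fun hg => Pool.Agent.TH707.BQ.ae_notBQP hg⟩⟩
  · rw [← W.all_XH f]
    have h : {A : Oracle | (∀ L, IsPH A L ↔ IsP A L) ∧ (∀ L, IsPSPACE A L → IsBQPq 1 A L) ∧
        ∃ L, IsBQPq 1 A L ∧ ¬ IsPH A L} = {A : Oracle | (∀ L, IsPH A L ↔ IsP A L) ∧
        (∀ L, IsPSPACE A L → IsBQPq 1 A L) ∧ ∃ L, IsBQPq 1 A L ∧ ¬ IsP A L} := by
      ext A
      refine and_congr_right fun h1 => and_congr_right fun _ => exists_congr fun L => ?_
      rw [h1 L]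
    rw [h]
  · obtain ⟨A, h1, h2, h3, L, h4, h5⟩ := Pool.Agent.TH654.OQ.exists_close_XG hg O
    exact ⟨A, h1, h2, h3, L, h4, fun h => h5 ((h2 L).1 h)⟩

end Pool.Agent.Results.MP_2eaaa0_lc.CollapseThreshold
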