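import Pool.Agent.H516R2.EQP3.All

/-!
# Quantum circuits without error when the polynomial hierarchy collapses to `P`

There is an oracle `A` with `P^A = PH^A` such that quantum circuits which make no errors and ask `A`
at most six questions decide every language in `PSPACE^A`, and also a language outside
`PH^A = P^A`.

(`IsP`, `IsPH`, `IsPSPACE`, `accProb`: `Pool.Agent.H620R2.Gauge.Defs`, `GaugeQ.Defs`; `IsEQP`:
`Pool.Agent.H516R2.EQP.Defs`. The theorem is the unused theorem `all_FX` of
`Pool.Agent.H516R2.EQP3.All`.)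
-/

set_option autoImplicit false

namespace Pool.Agent.Results.MP_2eaaa0_lc.CollapsedHierarchy

open Pool.Agent.H620R2.Gauge Pool.Agent.H516R2.EQP

theorem result :
    ∃ A : Oracle, (∀ L, IsPH A L ↔ IsP A L) ∧ (∀ L, IsPSPACE A L → IsEQP 6 A L) ∧
      ∃ L, IsEQP 6 A L ∧ ¬ IsPH A L := by
  obtain ⟨A, h1, h2, L, h3, h4⟩ := Pool.Agent.H516R2.EQP3.all_FX
  exact ⟨A, h1, h2, L, h3, fun h => h4 ((h1 L).1 h)⟩

end Pool.Agent.Results.MP_2eaaa0_lc.CollapsedHierarchy
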