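import Pool.Agent.TH654.RB.KR

/-!
# Quantum circuits with one question are outside the polynomial hierarchy for many oracles

`IsBQPq 1 A L` says that the language `L` is decided, with probability of error at most `1/3`, by
polynomial-time uniform quantum circuits which ask the oracle `A` at most ONE question.

Let `k` be an unbounded function such that `1 ^ (k n)` can be computed from `1 ^ n` in polynomial
time. If `n ^ (k n) ≤ f N` for all large `N` and all `n` with `2 ^ n ≤ N`, then the oracles `A` such
that some language decided by quantum circuits with one question is not in the polynomial hierarchy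
relative to `A` are not a null set for the gauge `f`. For example, `f N` can be
`2 ^ ((log log N) ^ (1 + ε))`, or `(log N) ^ (log log log N)`.
-/

set_option autoImplicit false

namespace Pool.Agent.Results.MP_2eaaa0_lc.OneQuestionManyOracles

open Pool.Agent.NPC Pool.Agent.H620R2.Gauge Pool.Agent.H516R2.EQP Pool.Agent.H516R2.EQP5
  Pool.Agent.H440Q

theorem result (f : ℕ → ℝ)
    (hf : (∃ ε : ℝ, 0 < ε ∧ ∀ᶠ N : ℕ in Filter.atTop,
        2 ^ (Real.logb 2 (Real.logb 2 N)) ^ (1 + ε) ≤ f N) ∨
      ∃ k : ℕ → ℕ, PolyTime (fun x => List.replicate (k x.length) true) ∧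
        (∀ c, ∃ n, c ≤ k n) ∧ ∀ᶠ N : ℕ in Filter.atTop, ∀ n : ℕ, 2 ^ n ≤ N →
          (n : ℝ) ^ k n ≤ f N) :
    ¬ Null f {A : Oracle | ∃ L, IsBQPq 1 A L ∧ ¬ IsPH A L} := by
  rcases hf with ⟨ε, hε, h⟩ | ⟨k, hk, hub, h⟩
  · exact all_IHn f ε hε h
  · exact Pool.Agent.TH654.RB.not_null_K hk hub h

end Pool.Agent.Results.MP_2eaaa0_lc.OneQuestionManyOracles
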