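import Pool.Agent.TH654.RB.Tasks2
import Pool.Agent.TH654.RB.KR

/-!
# How many strings of an oracle must be changed to put `BQP` outside the polynomial hierarchy?

Let `Close g O A` say that for all large `n` the oracles `O` and `A` differ on at most `g n`
strings of length at most `n`.

* If `g` is polynomially bounded (for some `c` and all large `n` there is `m ≥ n` with
  `g m ≤ n ^ c`), then, for a suitable oracle `O` which does not depend on `g`, relative to any
  oracle `A` with `Close g O A`, all languages in `BQP` are in `P`, and all languages in `PSPACE`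
  are in `P^NP`, hence in the polynomial hierarchy.
* If `g` is effectively not polynomially bounded (there is an unbounded function `k` such that
  `1 ^ (k n)` can be computed from `1 ^ n` in polynomial time, and `n ^ (k n) ≤ g m` for all large
  `m` and all `n ≤ m`), then every oracle `O` can be changed into an oracle `A` with `Close g O A`
  such that some language decided by polynomial-time uniform quantum circuits which ask only ONE
  question is not in the polynomial hierarchy relative to `A`.
-/

set_option autoImplicit false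

namespace Pool.Agent.Results.MP_2eaaa0_lc.PolynomiallyManyChanges

open Pool.Agent.NPC Pool.Agent.H620R2.Gauge Pool.Agent.H516R2.EQP Pool.Agent.H440Q
open Pool.Agent.TH678.PN (IsPNP)
open Pool.Agent.W900.CH (Close)
open Filter

theorem result :
    (∃ O : Oracle, ∀ g : ℕ → ℝ,
      (∃ c : ℕ, ∀ᶠ n : ℕ in atTop, ∃ m ≥ n, g m ≤ (n : ℝ) ^ c) →
      ∀ A : Oracle, Close g O A →
        (∀ L, IsBQP A L → IsP A L) ∧ (∀ L, IsPSPACE A L → IsPNP A L) ∧
          ∀ L, IsPNP A L → IsPH A L) ∧
    ∀ g : ℕ → ℝ,
      (∃ k : ℕ → ℕ, PolyTime (fun x => List.replicate (k x.length) true) ∧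
        (∀ c, ∃ n, c ≤ k n) ∧ ∀ᶠ m : ℕ in atTop, ∀ n ≤ m, (n : ℝ) ^ k n ≤ g m) →
      ∀ O : Oracle, ∃ A : Oracle, Close g O A ∧ ∃ L, IsBQPq 1 A L ∧ ¬ IsPH A L := by
  refine ⟨?_, fun g ⟨k, hk, hub, hg⟩ O => Pool.Agent.TH654.RB.exists_close_K hk hub hg O⟩
  obtain ⟨O, hO⟩ := Pool.Agent.TH654.RB.exists_robust2
  refine ⟨O, fun g hg A hA => ?_⟩
  obtain ⟨h1, h2⟩ := hO A (Pool.Agent.TH678.PC.dist_poly hg hA)
  exact ⟨h2, h1, fun L hL => hL.isPH⟩

end Pool.Agent.Results.MP_2eaaa0_lc.PolynomiallyManyChanges
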